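import Pool.Agent.helper36.PT.Spec

/-! # Project PT, row PCL: one class -/

set_option autoImplicit false

namespace Pool.Agent.PT

open Finset Pool.Agent.helper71.AA

lemma PCL_Gs_one (w : ℕ) (X η R : ℝ) (hR : 1 ≤ R) : 1 ≤ Gs (Qm w X η) R := by
  have hpm : ∀ l ∈ Qm w X η, 2 ≤ l := by
    intro l hl
    unfold Qm Qs at hl
    exact (mem_filter.1 hl).2.two_le
  have hmem : (∅ : Finset ℕ) ∈ Pool.Agent.helper71.AA.Sub (Qm w X η) R := by
    unfold Pool.Agent.helper71.AA.Sub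
    rw [mem_filter]
    refine ⟨empty_mem_powerset _, ?_⟩
    unfold pr
    rw [prod_empty]
    exact hR
  have h1 : 1 / ph (∅ : Finset ℕ) ≤ Gs (Qm w X η) R := by
    unfold Gs
    refine single_le_sum (f := fun K : Finset ℕ => 1 / ph K) (fun K hK => ?_) hmem
    have hKQ : K ⊆ Qm w X η := by
      unfold Pool.Agent.helper71.AA.Sub at hK
      exact mem_powerset.1 (mem_filter.1 hK).1
    have h0 : 0 ≤ ph K := by
      unfold ph
      refine prod_nonneg fun l hl => ?_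
      have h2 : (2 : ℝ) ≤ l := by exact_mod_cast hpm l (hKQ hl)
      linarith
    exact one_div_nonneg.2 h0
  have h2 : ph (∅ : Finset ℕ) = 1 := by
    unfold ph
    rw [prod_empty]
  rw [h2, div_one] at h1
  exact h1

/-- the pairs with a large square divisor -/
lemma PCL_sq (W a₀ b : ℕ) (X P : ℝ) (hX : 2 ≤ X) (hP : P ≤ X ^ (0.0001 : ℝ))
    [DecidablePred (fun a : ℕ => ∃ p ∈ Ps W b P, ∃ l : ℕ, l.Prime ∧ X ^ (0.13 : ℝ) < (l : ℝ) ∧
      l ^ 2 ∣ a * p ^ 2 - 1)] :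
    (((As W a₀ X).filter (fun a => ∃ p ∈ Ps W b P, ∃ l : ℕ, l.Prime ∧ X ^ (0.13 : ℝ) < (l : ℝ) ∧
      l ^ 2 ∣ a * p ^ 2 - 1)).card : ℝ) ≤ 4 * X ^ (0.88 : ℝ) := by
  classical
  have hX0 : 0 < X := by linarith
  have hX1 : 1 ≤ X := by linarith
  set y := ⌊X ^ (0.13 : ℝ)⌋₊ with hy
  set L := ⌊X ^ (0.501 : ℝ)⌋₊ with hL
  have hXδ : 1 ≤ X ^ (0.13 : ℝ) := Real.one_le_rpow hX1 (by norm_num)
  have hy1 : 1 ≤ y := (Nat.one_le_floor_iff _).2 hXδ
  have hyX : X ^ (0.13 : ℝ) / 2 ≤ y := by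
    have h1 := Nat.lt_floor_add_one (X ^ (0.13 : ℝ))
    rw [← hy] at h1
    have h2 : (1 : ℝ) ≤ y := by exact_mod_cast hy1
    linarith
  have hLX : (L : ℝ) ≤ X ^ (0.501 : ℝ) := Nat.floor_le (by positivity)
  have hsub : (As W a₀ X).filter (fun a => ∃ p ∈ Ps W b P, ∃ l : ℕ, l.Prime ∧
      X ^ (0.13 : ℝ) < (l : ℝ) ∧ l ^ 2 ∣ a * p ^ 2 - 1) ⊆
      (Ps W b P).biUnion (fun p => ((Ioc y L).filter Nat.Prime).biUnion
        (fun l => (Icc 1 ⌊X⌋₊).filter (fun a => l ^ 2 ∣ a * p ^ 2 - 1))) := by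
    intro a ha
    rw [mem_filter] at ha
    obtain ⟨ha1, p, hp, l, hl, hlX, hdvd⟩ := ha
    have hpp : p.Prime ∧ (p : ℝ) ≤ P := by
      unfold Ps at hp
      rw [mem_filter, mem_Icc] at hp
      refine ⟨hp.2.1, ?_⟩
      exact (Nat.le_floor_iff' (by omega)).1 hp.1.2
    have ha2 : 1 ≤ a ∧ (a : ℝ) ≤ X ∧ a ∈ Icc 1 ⌊X⌋₊ := by
      unfold As at ha1
      rw [mem_filter] at ha1
      have h3 := mem_Icc.1 ha1.1
      exact ⟨h3.1, (Nat.le_floor_iff' (by omega)).1 h3.2, ha1.1⟩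
    have h4 : 4 ≤ a * p ^ 2 := by nlinarith [Nat.pow_le_pow_left hpp.1.two_le 2, ha2.1]
    have hn0 : 0 < a * p ^ 2 - 1 := by omega
    have hle : l ^ 2 ≤ a * p ^ 2 - 1 := Nat.le_of_dvd hn0 hdvd
    have hle' : l ^ 2 ≤ a * p ^ 2 := by omega
    have hle2 : (l : ℝ) ^ 2 ≤ X * (X ^ (0.0001 : ℝ)) ^ 2 := by
      have h5 : ((l ^ 2 : ℕ) : ℝ) ≤ ((a * p ^ 2 : ℕ) : ℝ) := by exact_mod_cast hle'
      push_cast at h5
      have h6 : (p : ℝ) ≤ X ^ (0.0001 : ℝ) := hpp.2.trans hP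
      calc (l : ℝ) ^ 2 ≤ (a : ℝ) * (p : ℝ) ^ 2 := h5
        _ ≤ X * (X ^ (0.0001 : ℝ)) ^ 2 :=
          mul_le_mul ha2.2.1 (pow_le_pow_left₀ (Nat.cast_nonneg _) h6 2) (by positivity) hX0.le
    have hlL : (l : ℝ) ≤ X ^ (0.501 : ℝ) := by
      refine le_of_sq_le_sq ?_ (by positivity) 
      calc (l : ℝ) ^ 2 ≤ X * (X ^ (0.0001 : ℝ)) ^ 2 := hle2
        _ = X ^ (1.0002 : ℝ) := by
          rw [← Real.rpow_natCast (X ^ (0.0001 : ℝ)) 2, ← Real.rpow_mul hX0.le]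
          nth_rewrite 1 [← Real.rpow_one X]
          rw [← Real.rpow_add hX0]
          norm_num
        _ ≤ X ^ (1.002 : ℝ) := Real.rpow_le_rpow_of_exponent_le hX1 (by norm_num)
        _ = (X ^ (0.501 : ℝ)) ^ 2 := by
          rw [← Real.rpow_natCast (X ^ (0.501 : ℝ)) 2, ← Real.rpow_mul hX0.le]
          norm_num
    rw [mem_biUnion]
    refine ⟨p, hp, ?_⟩
    rw [mem_biUnion]
    refine ⟨l, ?_, ?_⟩
    · rw [mem_filter, mem_Ioc]
      refine ⟨⟨(Nat.floor_lt' hl.pos.ne').2 hlX, ?_⟩, hl⟩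
      rw [hL]
      exact Nat.le_floor hlL
    · rw [mem_filter]
      exact ⟨ha2.2.2, hdvd⟩
  have hsum : ∑ l ∈ Ioc y L, (1 : ℝ) / (l : ℝ) ^ 2 ≤ 1 / (y : ℝ) := by
    have hgen : ∀ M : ℕ, y ≤ M → ∑ l ∈ Ioc y M, (1 : ℝ) / (l : ℝ) ^ 2 ≤ 1 / (y : ℝ) - 1 / (M : ℝ) := by
      intro M hM
      induction M, hM using Nat.le_induction with
      | base => simp
      | succ M hM ih =>
        rw [← Finset.insert_Ioc_right_eq_Ioc_add_one (by omega : y ≤ M), sum_insert (by simp)]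
        have hM0 : (0 : ℝ) < M := by exact_mod_cast (by omega : 0 < M)
        have h7 : (1 : ℝ) / ((M + 1 : ℕ) : ℝ) ^ 2 ≤ 1 / (M : ℝ) - 1 / ((M + 1 : ℕ) : ℝ) := by
          push_cast
          rw [div_sub_div _ _ hM0.ne' (by positivity), div_le_div_iff₀ (by positivity) (by positivity)]
          nlinarith
        linarith
    rcases le_total y L with h | h
    · have h8 := hgen L h
      have h9 : (0 : ℝ) ≤ 1 / (L : ℝ) := by positivity
      linarith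
    · rw [Ioc_eq_empty (by omega), sum_empty]
      positivity
  have hy0 : (0 : ℝ) < y := by exact_mod_cast hy1
  have hin : ∀ p ∈ Ps W b P, ((((Ioc y L).filter Nat.Prime).biUnion
        (fun l => (Icc 1 ⌊X⌋₊).filter (fun a => l ^ 2 ∣ a * p ^ 2 - 1))).card : ℝ) ≤
        2 * X / X ^ (0.13 : ℝ) + X ^ (0.501 : ℝ) := by
    intro p hp
    have hpp : p.Prime := by
      unfold Ps at hp
      exact (mem_filter.1 hp).2.1
    calc ((((Ioc y L).filter Nat.Prime).biUnion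
        (fun l => (Icc 1 ⌊X⌋₊).filter (fun a => l ^ 2 ∣ a * p ^ 2 - 1))).card : ℝ)
        ≤ ∑ l ∈ (Ioc y L).filter Nat.Prime,
          (((Icc 1 ⌊X⌋₊).filter (fun a => l ^ 2 ∣ a * p ^ 2 - 1)).card : ℝ) := by
          exact_mod_cast card_biUnion_le
      _ ≤ ∑ l ∈ (Ioc y L).filter Nat.Prime, (X * (1 / (l : ℝ) ^ 2) + 1) := by
          refine sum_le_sum fun l hl => ?_
          have h10 := L1_sq_count ⌊X⌋₊ l p (mem_filter.1 hl).2 hpp
          refine h10.trans ?_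
          have h11 : ((⌊X⌋₊ : ℕ) : ℝ) ≤ X := Nat.floor_le hX0.le
          have h12 : ((⌊X⌋₊ : ℕ) : ℝ) / (l : ℝ) ^ 2 ≤ X * (1 / (l : ℝ) ^ 2) := by
            rw [mul_one_div]
            exact div_le_div_of_nonneg_right h11 (by positivity)
          linarith
      _ ≤ ∑ l ∈ Ioc y L, (X * (1 / (l : ℝ) ^ 2) + 1) :=
          sum_le_sum_of_subset_of_nonneg (filter_subset _ _) fun l _ _ => by positivity
      _ = X * ∑ l ∈ Ioc y L, (1 / (l : ℝ) ^ 2) + ((L - y : ℕ) : ℝ) := by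
          rw [sum_add_distrib, ← mul_sum, sum_const, Nat.card_Ioc, nsmul_eq_mul, mul_one]
      _ ≤ X * (1 / (y : ℝ)) + X ^ (0.501 : ℝ) := by
          refine add_le_add (mul_le_mul_of_nonneg_left hsum hX0.le) ?_
          refine le_trans ?_ hLX
          exact_mod_cast Nat.sub_le L y
      _ ≤ 2 * X / X ^ (0.13 : ℝ) + X ^ (0.501 : ℝ) := by
          refine add_le_add ?_ le_rfl
          rw [mul_one_div, div_le_div_iff₀ hy0 (by positivity)]
          nlinarith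
  have hPs : ((Ps W b P).card : ℝ) ≤ X ^ (0.0001 : ℝ) := by
    rcases le_or_gt 0 P with h | h
    · unfold Ps
      have h13 : ((Icc 1 ⌊P⌋₊).filter (fun p => p.Prime ∧ p ≡ b [MOD W])).card ≤ ⌊P⌋₊ := by
        refine (card_filter_le _ _).trans ?_
        rw [Nat.card_Icc]
        omega
      have h14 : (((Icc 1 ⌊P⌋₊).filter (fun p => p.Prime ∧ p ≡ b [MOD W])).card : ℝ) ≤
          ((⌊P⌋₊ : ℕ) : ℝ) := by exact_mod_cast h13
      exact h14.trans ((Nat.floor_le h).trans hP)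
    · have h15 : Ps W b P = ∅ := by
        unfold Ps
        rw [Nat.floor_of_nonpos h.le]
        simp
      rw [h15, card_empty]
      push_cast
      positivity
  have hcard : (((As W a₀ X).filter (fun a => ∃ p ∈ Ps W b P, ∃ l : ℕ, l.Prime ∧
      X ^ (0.13 : ℝ) < (l : ℝ) ∧ l ^ 2 ∣ a * p ^ 2 - 1)).card : ℝ) ≤
      ∑ p ∈ Ps W b P, ((((Ioc y L).filter Nat.Prime).biUnion
        (fun l => (Icc 1 ⌊X⌋₊).filter (fun a => l ^ 2 ∣ a * p ^ 2 - 1))).card : ℝ) := by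
    exact_mod_cast (card_le_card hsub).trans card_biUnion_le
  have e1 : X / X ^ (0.13 : ℝ) = X ^ (0.87 : ℝ) := by
    nth_rewrite 1 [← Real.rpow_one X]
    rw [← Real.rpow_sub hX0]
    norm_num
  calc _ ≤ _ := hcard
    _ ≤ ∑ p ∈ Ps W b P, (2 * X / X ^ (0.13 : ℝ) + X ^ (0.501 : ℝ)) := sum_le_sum hin
    _ = ((Ps W b P).card : ℝ) * (2 * X ^ (0.87 : ℝ) + X ^ (0.501 : ℝ)) := by
        rw [sum_const, nsmul_eq_mul, mul_div_assoc, e1]
    _ ≤ X ^ (0.0001 : ℝ) * (2 * X ^ (0.87 : ℝ) + X ^ (0.87 : ℝ)) := by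
        refine mul_le_mul hPs ?_ (by positivity) (by positivity)
        have := Real.rpow_le_rpow_of_exponent_le hX1 (by norm_num : (0.501 : ℝ) ≤ 0.87)
        linarith
    _ = 3 * X ^ (0.8701 : ℝ) := by
        have e2 : X ^ (0.0001 : ℝ) * X ^ (0.87 : ℝ) = X ^ (0.8701 : ℝ) := by
          rw [← Real.rpow_add hX0]
          norm_num
        rw [← e2]
        ring
    _ ≤ 4 * X ^ (0.88 : ℝ) := by
        have h16 := Real.rpow_le_rpow_of_exponent_le hX1 (by norm_num : (0.8701 : ℝ) ≤ 0.88)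
        have h17 : 0 ≤ X ^ (0.88 : ℝ) := by positivity
        linarith

theorem PCL (h1 : CON_stmt) (h2 : WTS_stmt) (h3 : PTW_stmt) : PCL_stmt := by
  classical
  intro eps heps
  obtain ⟨η₁, hη₁, hcon⟩ := h1 (eps * (0.001) ^ 2 / 10) (by positivity)
  obtain ⟨η₂, hη₂, hwts⟩ := h2
  set η : ℝ := min (min η₁ η₂) (1 / 20) with hηd
  have hη : 0 < η := lt_min (lt_min hη₁ hη₂) (by norm_num)
  have hηa : η ≤ η₁ := (min_le_left _ _).trans (min_le_left _ _)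
  have hηb : η ≤ η₂ := (min_le_left _ _).trans (min_le_right _ _)
  have hηc : η ≤ 1 / 20 := min_le_right _ _
  obtain ⟨w₀, hcon'⟩ := hcon η hη hηa
  obtain ⟨Xw, hwts'⟩ := hwts η hη hηb
  set w : ℕ := max w₀ 10 with hwd
  have hw0 : w₀ ≤ w := le_max_left _ _
  have hw10 : 10 ≤ w := le_max_right _ _
  obtain ⟨C, Xc, hC, hcc⟩ := hcon' w hw0
  obtain ⟨Xp, hpw⟩ := h3 w hw10 η hη hηc
  obtain ⟨P₀, hP₀⟩ := Ps_lower w
  obtain ⟨Xg, hg⟩ := Gs_le w hw10
  set W : ℝ := (primorial w : ℝ) with hW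
  have hW0 : 0 < W := by rw [hW]; exact_mod_cast primorial_pos w
  have hA0 := L1_Aw_pos w
  set φW : ℝ := (Nat.totient (primorial w) : ℝ) with hφ
  have hφ0 : 0 < φW := by
    rw [hφ]; exact_mod_cast Nat.totient_pos.2 (primorial_pos w)
  have hev : ∀ᶠ X : ℝ in Filter.atTop, 2 ≤ X ∧ 1 ≤ Real.log X ∧
      max P₀ 3 ≤ C * Real.log X * Real.log (Real.log X) ∧
      4 * X ^ (0.88 : ℝ) ≤ eps / 10 * (X / W) := by
    have e1 := L1_eventually C 0 (max P₀ 3) W 1 (1 / 10) 1 1 hC hW0 one_pos (by norm_num)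
      le_rfl one_pos one_pos
    have e2 : ∀ᶠ X : ℝ in Filter.atTop, 40 * W / eps ≤ X ^ (0.12 : ℝ) :=
      (tendsto_rpow_atTop (by norm_num)).eventually_ge_atTop _
    filter_upwards [e1, e2] with X hX hX2
    refine ⟨hX.1, hX.2.1, hX.2.2.1, ?_⟩
    have hX0 : 0 < X := by linarith [hX.1]
    have e3 : X = X ^ (0.12 : ℝ) * X ^ (0.88 : ℝ) := by
      rw [← Real.rpow_add hX0]
      norm_num
    have h88 : 0 ≤ X ^ (0.88 : ℝ) := by positivity
    have h4 : 40 * W ≤ eps * X ^ (0.12 : ℝ) := by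
      rw [div_le_iff₀ heps] at hX2
      linarith
    have h5 : eps / 10 * (X / W) = (eps * X ^ (0.12 : ℝ)) * X ^ (0.88 : ℝ) / (10 * W) := by
      conv_lhs => rw [e3]
      field_simp
    rw [h5, le_div_iff₀ (by positivity)]
    calc 4 * X ^ (0.88 : ℝ) * (10 * W) = 40 * W * X ^ (0.88 : ℝ) := by ring
      _ ≤ eps * X ^ (0.12 : ℝ) * X ^ (0.88 : ℝ) := mul_le_mul_of_nonneg_right h4 h88
  obtain ⟨Xe, hXe'⟩ := Filter.eventually_atTop.1 hev
  refine ⟨w, hw10, 0.01 * η / (32 * φW) / Aw w, C,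
    max (max (max Xc Xw) (max Xp Xg)) Xe, by positivity, hC, ?_⟩
  intro X P hX hR a₀ b hb hab
  have hXc : Xc ≤ X := (le_max_left _ _).trans ((le_max_left _ _).trans ((le_max_left _ _).trans hX))
  have hXw : Xw ≤ X := (le_max_right _ _).trans ((le_max_left _ _).trans ((le_max_left _ _).trans hX))
  have hXp : Xp ≤ X := (le_max_left _ _).trans ((le_max_right _ _).trans ((le_max_left _ _).trans hX))
  have hXg : Xg ≤ X := (le_max_right _ _).trans ((le_max_right _ _).trans ((le_max_left _ _).trans hX))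
  have hXe : Xe ≤ X := (le_max_right _ _).trans hX
  obtain ⟨hXtwo, hlogX, hP1, hrare⟩ := hXe' X hXe
  have hRl : C * Real.log X * Real.log (Real.log X) ≤ P := hR.1
  have hRu : P ≤ X ^ (0.0001 : ℝ) := hR.2
  have hPP : max P₀ 3 ≤ P := hP1.trans hRl
  have hPP0 : P₀ ≤ P := (le_max_left _ _).trans hPP
  have hP3 : 3 ≤ P := (le_max_right _ _).trans hPP
  have hX0 : 0 < X := by linarith
  have hX1 : 1 ≤ X := by linarith
  have hlogP : 0 < Real.log P := Real.log_pos (by linarith)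
  have hlogX0 : 0 < Real.log X := by linarith
  obtain ⟨ξ₁, ξ₂, ξ₃, ad1, ad2, ad3, v1, v2, v3, hV, hU⟩ := hwts' X hXw
  set PS := Ps (primorial w) b P with hPS
  set AS := As (primorial w) a₀ X with hAS
  set N : ℝ := (PS.card : ℝ) with hNd
  set G : ℝ := Gs (Qm w X η) (Rr X) with hG
  have hNlow : P / (32 * φW * Real.log P) ≤ N := hP₀ P hPP0 b hb
  have hN0 : 0 < N := lt_of_lt_of_le (by positivity) hNlow
  have hRr1 : 1 ≤ Rr X := by
    unfold Rr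
    exact Real.one_le_rpow hX1 (by norm_num)
  have hG1 : 1 ≤ G := PCL_Gs_one w X η (Rr X) hRr1
  have hGle : G ≤ Aw w * Real.log X := by
    refine hg X hXg ⌊X ^ η⌋₊ _ (Subset.refl _) (Rr X) ?_
    unfold Rr
    exact Real.rpow_le_rpow_of_exponent_le hX1 (by norm_num)
  have hG0 : 0 < G := by linarith
  set Λ : ℝ := N * G * η with hΛ
  have hΛ0 : 0 < Λ := by positivity
  set t : ℝ := 0.001 * Λ with ht
  have ht0 : 0 < t := by positivity
  set Y : (Finset ℕ → ℝ) → ℕ → ℝ := fun ξ a =>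
    ∑ p ∈ PS, ft w X η ξ p (a : ℤ) - N * G * Vx (Ql X η) ξ with hY
  have cheb : ∀ ξ : Finset ℕ → ℝ, AdmL X η ξ → 0 ≤ Vx (Ql X η) ξ → Vx (Ql X η) ξ ≤ 20 * η →
      ((AS.filter (fun a => t ≤ |Y ξ a|)).card : ℝ) ≤ eps / 10 * (X / W) := by
    intro ξ had hv0 hv1
    have h5 := hcc X P hXc hR a₀ b hb ξ had hv0 hv1
    refine (L1_cheb AS (Y ξ) t _ ht0 h5).trans ?_
    refine le_of_eq ?_
    rw [div_eq_iff (by positivity), ht]
    ring
  have hlam : 1 ≤ lamR ∧ lamR ≤ 1.2 := by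
    unfold lamR
    constructor
    · rw [le_div_iff₀ (by norm_num)]
      norm_num
    · rw [div_le_iff₀ (by norm_num)]
      norm_num
  have hsub : (AS.filter (fun a => (((Gp2 a P (X ^ (0.13 : ℝ))).card : ℕ) : ℝ) <
      0.01 * η / (32 * φW) / Aw w * P / (Real.log P * Real.log X))) ⊆
      (((AS.filter (fun a => t ≤ |Y ξ₁ a|)) ∪ (AS.filter (fun a => t ≤ |Y ξ₂ a|))) ∪
      (AS.filter (fun a => t ≤ |Y ξ₃ a|))) ∪
      (AS.filter (fun a => ∃ p ∈ PS, ∃ l : ℕ, l.Prime ∧ X ^ (0.13 : ℝ) < (l : ℝ) ∧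
        l ^ 2 ∣ a * p ^ 2 - 1)) := by
    intro a ha
    rw [mem_filter] at ha
    obtain ⟨haAS, haG⟩ := ha
    by_contra hcon
    rw [mem_union, mem_union, mem_union] at hcon
    push Not at hcon
    obtain ⟨⟨⟨n0, n1⟩, n2⟩, n3⟩ := hcon
    have g1 : |Y ξ₁ a| < t := by
      by_contra h
      exact n0 (mem_filter.2 ⟨haAS, not_lt.1 h⟩)
    have g2 : |Y ξ₂ a| < t := by
      by_contra h
      exact n1 (mem_filter.2 ⟨haAS, not_lt.1 h⟩)
    have g3 : |Y ξ₃ a| < t := by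
      by_contra h
      exact n2 (mem_filter.2 ⟨haAS, not_lt.1 h⟩)
    have g4 : ∀ p ∈ PS, ∀ l : ℕ, l.Prime → X ^ (0.13 : ℝ) < (l : ℝ) → ¬ (l ^ 2 ∣ a * p ^ 2 - 1) := by
      intro p hp l hl hlX hd
      exact n3 (mem_filter.2 ⟨haAS, p, hp, l, hl, hlX, hd⟩)
    have hup : ∑ p ∈ PS, (ft w X η ξ₁ p (a : ℤ) - ft w X η ξ₂ p (a : ℤ) -
        lamR * ft w X η ξ₃ p (a : ℤ)) ≤ G ^ 2 * ((Gp2 a P (X ^ (0.13 : ℝ))).card : ℝ) := by
      calc _ ≤ ∑ p ∈ PS, (if p ∈ Gp2 a P (X ^ (0.13 : ℝ)) then G ^ 2 else 0) := by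
            refine sum_le_sum fun p hp => ?_
            exact hpw X P hXp hRu a₀ b hab ξ₁ ξ₂ ξ₃ hU a haAS p hp (L1_prime_of_class hb hp).2.1
              (g4 p hp)
        _ = G ^ 2 * ((PS.filter (fun p => p ∈ Gp2 a P (X ^ (0.13 : ℝ)))).card : ℝ) := by
            rw [← sum_filter, sum_const, nsmul_eq_mul, mul_comm]
        _ ≤ _ := by
            refine mul_le_mul_of_nonneg_left ?_ (by positivity)
            have : (PS.filter (fun p => p ∈ Gp2 a P (X ^ (0.13 : ℝ)))) ⊆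
                Gp2 a P (X ^ (0.13 : ℝ)) := by
              intro p hp
              exact (mem_filter.1 hp).2
            exact_mod_cast card_le_card this
    have hlo : 0.01 * Λ ≤ ∑ p ∈ PS, (ft w X η ξ₁ p (a : ℤ) - ft w X η ξ₂ p (a : ℤ) -
        lamR * ft w X η ξ₃ p (a : ℤ)) := by
      rw [sum_sub_distrib, sum_sub_distrib, ← mul_sum]
      have k1 := (abs_lt.1 g1).1
      have k2 := (abs_lt.1 g2).2
      have k3 := (abs_lt.1 g3).2
      simp only [hY] at k1 k2 k3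
      set S1 := ∑ p ∈ PS, ft w X η ξ₁ p (a : ℤ)
      set S2 := ∑ p ∈ PS, ft w X η ξ₂ p (a : ℤ)
      set S3 := ∑ p ∈ PS, ft w X η ξ₃ p (a : ℤ)
      have k4 : N * G * (0.02 * η) ≤ N * G *
          (Vx (Ql X η) ξ₁ - Vx (Ql X η) ξ₂ - lamR * Vx (Ql X η) ξ₃) :=
        mul_le_mul_of_nonneg_left hV (by positivity)
      have k5 : lamR * S3 ≤ lamR * (t + N * G * Vx (Ql X η) ξ₃) :=
        mul_le_mul_of_nonneg_left (by linarith) (by linarith [hlam.1])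
      have k6 : lamR * t ≤ 1.2 * t := mul_le_mul_of_nonneg_right hlam.2 ht0.le
      have k7 : N * G * (0.02 * η) = 0.02 * Λ := by rw [hΛ]; ring
      have k8 : t = 0.001 * Λ := rfl
      rw [k7] at k4
      nlinarith
    have hfin : 0.01 * Λ ≤ G ^ 2 * ((Gp2 a P (X ^ (0.13 : ℝ))).card : ℝ) := hlo.trans hup
    have hfin2 : 0.01 * N * η ≤ G * ((Gp2 a P (X ^ (0.13 : ℝ))).card : ℝ) := by
      have e : 0.01 * Λ = G * (0.01 * N * η) := by rw [hΛ]; ring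
      have e' : G ^ 2 * ((Gp2 a P (X ^ (0.13 : ℝ))).card : ℝ) =
          G * (G * ((Gp2 a P (X ^ (0.13 : ℝ))).card : ℝ)) := by ring
      rw [e, e'] at hfin
      exact le_of_mul_le_mul_left hfin hG0
    have hfin3 : 0.01 * N * η ≤ Aw w * Real.log X * ((Gp2 a P (X ^ (0.13 : ℝ))).card : ℝ) :=
      hfin2.trans (mul_le_mul_of_nonneg_right hGle (Nat.cast_nonneg _))
    have hfin4 : 0.01 * η / (32 * φW) / Aw w * P / (Real.log P * Real.log X) ≤
        ((Gp2 a P (X ^ (0.13 : ℝ))).card : ℝ) := by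
      have e : 0.01 * η / (32 * φW) / Aw w * P / (Real.log P * Real.log X) =
          0.01 * (P / (32 * φW * Real.log P)) * η / (Aw w * Real.log X) := by
        field_simp
      rw [e, div_le_iff₀ (by positivity)]
      calc 0.01 * (P / (32 * φW * Real.log P)) * η ≤ 0.01 * N * η := by
            refine mul_le_mul_of_nonneg_right ?_ hη.le
            exact mul_le_mul_of_nonneg_left hNlow (by norm_num)
        _ ≤ _ := hfin3
        _ = _ := by ring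
    linarith
  have hcard := card_le_card hsub
  have hB : ((AS.filter (fun a => ∃ p ∈ PS, ∃ l : ℕ, l.Prime ∧ X ^ (0.13 : ℝ) < (l : ℝ) ∧
        l ^ 2 ∣ a * p ^ 2 - 1)).card : ℝ) ≤ eps / 10 * (X / W) :=
    (PCL_sq (primorial w) a₀ b X P hXtwo hRu).trans hrare
  have u1 := card_union_le (((AS.filter (fun a => t ≤ |Y ξ₁ a|)) ∪
      (AS.filter (fun a => t ≤ |Y ξ₂ a|))) ∪ (AS.filter (fun a => t ≤ |Y ξ₃ a|)))
      (AS.filter (fun a => ∃ p ∈ PS, ∃ l : ℕ, l.Prime ∧ X ^ (0.13 : ℝ) < (l : ℝ) ∧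
        l ^ 2 ∣ a * p ^ 2 - 1))
  have u2 := card_union_le ((AS.filter (fun a => t ≤ |Y ξ₁ a|)) ∪
      (AS.filter (fun a => t ≤ |Y ξ₂ a|))) (AS.filter (fun a => t ≤ |Y ξ₃ a|))
  have u3 := card_union_le (AS.filter (fun a => t ≤ |Y ξ₁ a|)) (AS.filter (fun a => t ≤ |Y ξ₂ a|))
  have c1 := cheb ξ₁ ad1 v1.1 v1.2
  have c2 := cheb ξ₂ ad2 v2.1 v2.2
  have c3 := cheb ξ₃ ad3 v3.1 v3.2
  have hall : ((AS.filter (fun a => (((Gp2 a P (X ^ (0.13 : ℝ))).card : ℕ) : ℝ) <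
      0.01 * η / (32 * φW) / Aw w * P / (Real.log P * Real.log X))).card : ℝ) ≤
      ((AS.filter (fun a => t ≤ |Y ξ₁ a|)).card : ℝ) + ((AS.filter (fun a => t ≤ |Y ξ₂ a|)).card : ℝ) +
      ((AS.filter (fun a => t ≤ |Y ξ₃ a|)).card : ℝ) +
      ((AS.filter (fun a => ∃ p ∈ PS, ∃ l : ℕ, l.Prime ∧ X ^ (0.13 : ℝ) < (l : ℝ) ∧
        l ^ 2 ∣ a * p ^ 2 - 1)).card : ℝ) := by
    exact_mod_cast hcard.trans (u1.trans (Nat.add_le_add_right
      (u2.trans (Nat.add_le_add_right u3 _)) _))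
  have hXW : 0 ≤ X / W := by positivity
  have hlast : 4 * (eps / 10 * (X / W)) ≤ eps * (X / W) := by
    nlinarith [mul_nonneg heps.le hXW]
  linarith

end Pool.Agent.PT
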