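import Pool.Agent.helper59.PT.Spec2

set_option linter.all false
set_option autoImplicit false

/-!
# The derivative of the permanent along a path (row DV of the plan for three copies)
-/

namespace Pool.Agent.helper6.PT

open Pool.Agent.helper59.PT
open scoped ComplexConjugate

/-- the derivative of a permanent: replace the rows one after the other by their derivatives -/
theorem hasDerivAt_permanent {n : Type*} [Fintype n] [DecidableEq n] (A : ℝ → Matrix n n ℂ)
    (A' : Matrix n n ℂ) (t : ℝ) (h : ∀ i j, HasDerivAt (fun t => A t i j) (A' i j) t) :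
    HasDerivAt (fun t => (A t).permanent) (∑ x, ((A t).updateRow x (A' x)).permanent) t := by
  classical
  have e : (∑ x, ((A t).updateRow x (A' x)).permanent) =
      ∑ σ : Equiv.Perm n, ∑ i, (∏ j ∈ Finset.univ.erase i, A t (σ j) j) • A' (σ i) i := by
    unfold Matrix.permanent
    rw [Finset.sum_comm]
    refine Finset.sum_congr rfl fun σ _ => ?_
    rw [← Equiv.sum_comp σ]
    refine Finset.sum_congr rfl fun i _ => ?_
    rw [← Finset.prod_erase_mul Finset.univ _ (Finset.mem_univ i), smul_eq_mul]
    congr 1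
    · refine Finset.prod_congr rfl fun j hj => ?_
      rw [Matrix.updateRow_ne]
      exact fun hh => (Finset.ne_of_mem_erase hj) (σ.injective hh)
    · rw [Matrix.updateRow_self]
  rw [e]
  unfold Matrix.permanent
  refine HasDerivAt.fun_sum fun σ _ => ?_
  exact HasDerivAt.fun_finsetProd fun i _ => h (σ i) i

theorem rowDV2 : RowDV2 := by
  intro m B γ v t hγ
  have h1 : ∀ x y : Fin 3 × Fin m, HasDerivAt (fun t => KB (γ t) B x y)
      ((Matrix.of fun (x y : Fin 3 × Fin m) => ((v (y.1 - x.1) : ℝ) : ℂ) * B x.2 y.2) x y) t := by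
    intro x y
    have h2 : HasDerivAt (fun t => γ t (y.1 - x.1)) (v (y.1 - x.1)) t :=
      (hasDerivAt_pi.1 hγ) (y.1 - x.1)
    have h3 := h2.ofReal_comp
    have h4 := h3.mul_const (B x.2 y.2)
    simpa [KB, circ] using h4
  have h5 := hasDerivAt_permanent (fun t => KB (γ t) B) _ t h1
  have h6 := Complex.reCLM.hasFDerivAt.comp_hasDerivAt t h5
  have h7 : (∑ s : Fin m, ∑ p : Fin 3,
      ((KB (γ t) B).updateRow (p, s) (fun y => (v (y.1 - p) : ℂ) * B s y.2)).permanent.re) =
      Complex.reCLM (∑ x, ((KB (γ t) B).updateRow x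
        ((Matrix.of fun (x y : Fin 3 × Fin m) => ((v (y.1 - x.1) : ℝ) : ℂ) * B x.2 y.2)
          x)).permanent) := by
    rw [map_sum, Fintype.sum_prod_type_right]
    rfl
  rw [h7]
  exact h6

end Pool.Agent.helper6.PT
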